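import Mathlib

/-!
# Abelian rigid tensor categories
-/

open CategoryTheory MonoidalCategory Limits ExactPairing

universe v u w

namespace Pool.Agent.H694.AB

variable {C : Type u} [Category.{v} C] [MonoidalCategory C]

section Rigid

variable [Preadditive C] [RigidCategory C]

instance mono_whiskerLeft (X : C) {Y Z : C} (f : Y ⟶ Z) [Mono f] : Mono (X ◁ f) := by
  have := (tensorLeftAdjunction X Xᘁ).rightAdjoint_preservesLimits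
  exact (inferInstance : Mono ((tensorLeft X).map f))

instance epi_whiskerLeft (X : C) {Y Z : C} (f : Y ⟶ Z) [Epi f] : Epi (X ◁ f) := by
  have := (tensorLeftAdjunction (ᘁX) X).leftAdjoint_preservesColimits
  exact (inferInstance : Epi ((tensorLeft X).map f))

instance mono_whiskerRight (X : C) {Y Z : C} (f : Y ⟶ Z) [Mono f] : Mono (f ▷ X) := by
  have := (tensorRightAdjunction (ᘁX) X).rightAdjoint_preservesLimits
  exact (inferInstance : Mono ((tensorRight X).map f))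

instance epi_whiskerRight (X : C) {Y Z : C} (f : Y ⟶ Z) [Epi f] : Epi (f ▷ X) := by
  have := (tensorRightAdjunction X Xᘁ).leftAdjoint_preservesColimits
  exact (inferInstance : Epi ((tensorRight X).map f))

end Rigid

section Zero

variable [Preadditive C] [MonoidalPreadditive C]

lemma isZero_of_factor {X Y : C} (f : X ⟶ Y) (g : Y ⟶ X) (h : f ≫ g = 𝟙 X) (hY : IsZero Y) :
    IsZero X := by
  rw [IsZero.iff_id_eq_zero, ← h, hY.eq_of_tgt f 0, zero_comp]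

lemma isZero_tensor_left {X Y : C} (h : IsZero X) : IsZero (X ⊗ Y) := by
  rw [IsZero.iff_id_eq_zero] at h ⊢
  rw [← id_tensorHom_id, h, MonoidalPreadditive.zero_tensor]

lemma isZero_tensor_right {X Y : C} (h : IsZero Y) : IsZero (X ⊗ Y) := by
  rw [IsZero.iff_id_eq_zero] at h ⊢
  rw [← id_tensorHom_id, h, MonoidalPreadditive.tensor_zero]

lemma isZero_mid {X I Y : C} (e : X ⟶ I) (m : I ⟶ Y) [Epi e] [Mono m] (h : e ≫ m = 0) :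
    IsZero I := by
  have h1 : m = 0 := by
    rw [← cancel_epi e, h, comp_zero]
  exact IsZero.of_mono_eq_zero m h1

variable [BraidedCategory C] [RigidCategory C]

lemma isZero_comm {X Y : C} (h : IsZero (X ⊗ Y)) : IsZero (Y ⊗ X) :=
  h.of_iso (β_ Y X)

/-- If `X ⊗ Y` is zero, then so is `Xᘁ ⊗ Y`. -/
lemma isZero_dual {X Y : C} (h : IsZero (X ⊗ Y)) : IsZero (Xᘁ ⊗ Y) := by
  -- the identity of `Xᘁ` factors through `(Xᘁ ⊗ X) ⊗ Xᘁ`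
  have h0 : IsZero (((Xᘁ ⊗ X) ⊗ Xᘁ) ⊗ Y) := by
    have h1 : IsZero ((Xᘁ ⊗ Xᘁ) ⊗ (X ⊗ Y)) := isZero_tensor_right h
    refine h1.of_iso ?_
    exact (whiskerRightIso (α_ _ _ _ ≪≫ whiskerLeftIso _ (β_ _ _) ≪≫ (α_ _ _ _).symm) Y) ≪≫
      α_ _ _ _
  have hz := ExactPairing.coevaluation_evaluation X Xᘁ
  refine isZero_of_factor (((ρ_ Xᘁ).inv ≫ Xᘁ ◁ η_ X Xᘁ ≫ (α_ _ _ _).inv) ▷ Y)
    ((ε_ X Xᘁ ▷ Xᘁ ≫ (λ_ Xᘁ).hom) ▷ Y) ?_ h0
  rw [← comp_whiskerRight]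
  have : ((ρ_ Xᘁ).inv ≫ Xᘁ ◁ η_ X Xᘁ ≫ (α_ _ _ _).inv) ≫ ε_ X Xᘁ ▷ Xᘁ ≫ (λ_ Xᘁ).hom =
      (ρ_ Xᘁ).inv ≫ (Xᘁ ◁ η_ X Xᘁ ≫ (α_ _ _ _).inv ≫ ε_ X Xᘁ ▷ Xᘁ) ≫ (λ_ Xᘁ).hom := by
    simp only [Category.assoc]
  rw [this, hz]
  simp

/-- If `X ⊗ X` is zero, then so is `X`. -/
lemma isZero_self {X : C} (h : IsZero (X ⊗ X)) : IsZero X := by
  have h0 : IsZero ((X ⊗ Xᘁ) ⊗ X) := by
    have h1 : IsZero (Xᘁ ⊗ (X ⊗ X)) := isZero_tensor_right h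
    refine h1.of_iso ?_
    exact (whiskerRightIso (β_ _ _) X) ≪≫ α_ _ _ _
  refine isZero_of_factor ((λ_ X).inv ≫ η_ X Xᘁ ▷ X) ((α_ _ _ _).hom ≫ X ◁ ε_ X Xᘁ ≫ (ρ_ X).hom)
    ?_ h0
  have hz := ExactPairing.evaluation_coevaluation X Xᘁ
  have : ((λ_ X).inv ≫ η_ X Xᘁ ▷ X) ≫ (α_ _ _ _).hom ≫ X ◁ ε_ X Xᘁ ≫ (ρ_ X).hom =
      (λ_ X).inv ≫ (η_ X Xᘁ ▷ X ≫ (α_ _ _ _).hom ≫ X ◁ ε_ X Xᘁ) ≫ (ρ_ X).hom := by
    simp only [Category.assoc]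
  rw [this, hz]
  simp

end Zero

end Pool.Agent.H694.AB
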