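import Mathlib

/-!
# Tensor powers and exterior powers in tensor categories: definitions
-/

open CategoryTheory MonoidalCategory Limits

universe v u w

namespace Pool.Agent.H694.AB

variable {C : Type u} [Category.{v} C] [MonoidalCategory C]

/-- The tensor power `M ⊗ (M ⊗ (⋯ ⊗ (M ⊗ 𝟙)))` with `n` factors `M`. -/
def pow (M : C) : ℕ → C
  | 0 => 𝟙_ C
  | n + 1 => M ⊗ pow M n

/-- The product `x 0 ⊗ x 1 ⊗ ⋯ ⊗ x (n - 1)` of morphisms from the unit object to `M`. -/
def prod {M : C} : {n : ℕ} → (Fin n → (𝟙_ C ⟶ M)) → (𝟙_ C ⟶ pow M n)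
  | 0, _ => 𝟙 (𝟙_ C)
  | _ + 1, x => (λ_ (𝟙_ C)).inv ≫ (x 0 ⊗ₘ prod fun i => x i.succ)

/-- The product of the morphisms `x 0, …, x (n - 1)` from the unit object to `M` and of the
morphism `g : T ⟶ M`, where `g` is placed at the position `j` and the `x i` are placed in the given
order at the other positions. -/
def prodIns {T M : C} (g : T ⟶ M) : {n : ℕ} → (Fin n → (𝟙_ C ⟶ M)) → Fin (n + 1) →
    (T ⟶ pow M (n + 1))
  | 0, _, _ => (ρ_ T).inv ≫ (g ⊗ₘ 𝟙 (𝟙_ C))
  | _ + 1, x, j => Fin.cases ((ρ_ T).inv ≫ (g ⊗ₘ prod x))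
      (fun j' => (λ_ T).inv ≫ (x 0 ⊗ₘ prodIns g (fun i => x i.succ) j')) j

/-- The morphism `x : 𝟙 ⟶ M` is smash nilpotent: `x ⊗ ⋯ ⊗ x = 0` for some number of factors. -/
def SmashNilpotent [Preadditive C] {M : C} (x : 𝟙_ C ⟶ M) : Prop :=
  ∃ n : ℕ, prod (fun _ : Fin n => x) = 0

/-- For all `x 0, …, x (n - 1) : 𝟙 ⟶ M` the antisymmetrisation of the morphism
`x 0 ⊗ ⋯ ⊗ x (n - 1) ⊗ 𝟙 M` from `M` to the tensor power with `n + 1` factors is zero (the sum, with
signs, over all orders of the `n + 1` factors). This holds if the exterior power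
`Λ ^ (n + 1) M` is zero. -/
def ExtVanish [Preadditive C] (M : C) (n : ℕ) : Prop :=
  ∀ x : Fin n → (𝟙_ C ⟶ M), ∑ σ : Equiv.Perm (Fin n), ∑ j : Fin (n + 1),
    ((Equiv.Perm.sign σ : ℤ) * (-1) ^ (j : ℕ)) • prodIns (𝟙 M) (fun i => x (σ i)) j = 0

/-- The object `M` is the direct sum of `n` copies of the unit object. -/
def IsUnitPower [Preadditive C] (M : C) (n : ℕ) : Prop :=
  ∃ (x : Fin n → (𝟙_ C ⟶ M)) (y : Fin n → (M ⟶ 𝟙_ C)),
    (∀ i j, x i ≫ y j = if i = j then 𝟙 (𝟙_ C) else 0) ∧ ∑ j, y j ≫ x j = 𝟙 M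

/-- An action of the `K`-algebra `E` on the object `M`. -/
structure FieldAction (K : Type w) [Field K] (E : Type w) [Field E] [Algebra K E]
    [Preadditive C] [Linear K C] (M : C) where
  /-- the endomorphism given by an element of `E` -/
  φ : E → (M ⟶ M)
  map_one : φ 1 = 𝟙 M
  map_add : ∀ a b, φ (a + b) = φ a + φ b
  map_mul : ∀ a b, φ (a * b) = φ a ≫ φ b
  map_smul : ∀ (r : K) (a : E), φ (r • a) = r • φ a

/-- The object `M` is even of dimension `n`, with an action of a field `E` of degree `n` over `K`: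
it is of rank one over `E`. -/
def EvenRankOne (K : Type w) [Field K] [Preadditive C] [Linear K C] (M : C) : Prop :=
  ∃ (E : Type w) (_ : Field E) (_ : Algebra K E), FiniteDimensional K E ∧
    Nonempty (FieldAction K E M) ∧ ExtVanish M (Module.finrank K E)

/-- All morphisms from the unit object to `M` are smash nilpotent. This holds if a symmetric
power of `M` is zero, and also if there are no morphisms from the unit object to `M` besides
zero. -/
def AllNilpotent [Preadditive C] (M : C) : Prop := ∀ x : 𝟙_ C ⟶ M, SmashNilpotent x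

/-- The identity of `M` is a sum of compositions `M ⟶ N k ⟶ M`, where each `N k` is even of rank
one over a field or has only smash nilpotent morphisms from the unit object. -/
def SumOfRankOne (K : Type w) [Field K] [Preadditive C] [Linear K C] (M : C) : Prop :=
  ∃ (r : ℕ) (N : Fin r → C) (p : ∀ k, M ⟶ N k) (i : ∀ k, N k ⟶ M),
    (∀ k, AllNilpotent (N k) ∨ EvenRankOne K (N k)) ∧ ∑ k, p k ≫ i k = 𝟙 M

/-- An object of rank one, even or odd: it is not zero, and the exchange of the factors of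
`L ⊗ L` is `1` or `-1` (so the second exterior power or the second symmetric power is zero). -/
def RankOne [Preadditive C] [BraidedCategory C] (L : C) : Prop :=
  ¬ IsZero L ∧ ((β_ L L).hom = 𝟙 (L ⊗ L) ∨ (β_ L L).hom = -𝟙 (L ⊗ L))

/-- The identity of `M` is a sum of compositions `M ⟶ N k ⟶ M`, where each `N k` is of rank one. -/
def SumOfLines [Preadditive C] [BraidedCategory C] (M : C) : Prop :=
  ∃ (r : ℕ) (N : Fin r → C) (p : ∀ k, M ⟶ N k) (i : ∀ k, N k ⟶ M),
    (∀ k, RankOne (N k)) ∧ ∑ k, p k ≫ i k = 𝟙 M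

/-- The morphism `x` from the unit object to `M` is numerically trivial. -/
def NumTrivial [Preadditive C] {M : C} (x : 𝟙_ C ⟶ M) : Prop :=
  ∀ y : M ⟶ 𝟙_ C, x ≫ y = 0

end Pool.Agent.H694.AB
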