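import Pool.Agent.H694.AB.Main

/-!
# Consequences of the abelianness of a rigid tensor category: finite dimension and rank one
-/

open CategoryTheory MonoidalCategory Limits ExactPairing Finset

universe v u w

set_option linter.unusedSectionVars false

namespace Pool.Agent.H694.AB

variable {C : Type u} [Category.{v} C] [Abelian C] [MonoidalCategory C] [MonoidalPreadditive C]
  [BraidedCategory C] [RigidCategory C] {K : Type w} [Field K] [Linear K C] [MonoidalLinear K C]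

lemma card_le (hEnd : ∀ f : 𝟙_ C ⟶ 𝟙_ C, ∃ r : K, f = r • 𝟙 _) (h1 : ¬ IsZero (𝟙_ C))
    {M : C} {n : ℕ} (hM : ExtVanish M n) {m : ℕ} (x : Fin m → (𝟙_ C ⟶ M))
    (hx : LinearIndependent K x) : m ≤ n := by
  by_contra hlt
  push Not at hlt
  obtain ⟨k, rfl⟩ : ∃ k, m = n + 1 + k := ⟨m - (n + 1), by omega⟩
  have hx' : LinearIndependent K (fun i : Fin (n + 1) => x (Fin.castLE (by omega) i)) :=
    hx.comp _ (Fin.castLE_injective _)
  set z : Fin (n + 1) → (𝟙_ C ⟶ M) := fun i => x (Fin.castLE (by omega) i) with hz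
  have hz' : LinearIndependent K (fun i : Fin n => z i.castSucc) :=
    hx'.comp _ (Fin.castSucc_injective _)
  obtain ⟨y, -, hy⟩ := isUnitPower hEnd h1 hM _ hz'
  have hr : ∀ j, ∃ r : K, z (Fin.last n) ≫ y j = r • 𝟙 _ := fun j => hEnd _
  choose r hr using hr
  have h2 : z (Fin.last n) = ∑ j, r j • z j.castSucc := by
    calc z (Fin.last n) = z (Fin.last n) ≫ (∑ j, y j ≫ z j.castSucc) := by
          rw [hy, Category.comp_id]
      _ = _ := by
          rw [Preadditive.comp_sum]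
          apply Finset.sum_congr rfl
          intro j _
          rw [← Category.assoc, hr j, Linear.smul_comp, Category.id_comp]
  rw [Fintype.linearIndependent_iff] at hx'
  have h3 := hx' (Fin.snoc r (-1)) (by
    rw [Fin.sum_univ_castSucc]
    simp only [Fin.snoc_castSucc, Fin.snoc_last]
    rw [← h2, neg_smul, one_smul, add_neg_cancel]) (Fin.last n)
  rw [Fin.snoc_last] at h3
  exact one_ne_zero (neg_eq_zero.1 h3)

/-- The dimension of the space of the morphisms from the unit object. -/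
theorem finite_of_ext (hEnd : ∀ f : 𝟙_ C ⟶ 𝟙_ C, ∃ r : K, f = r • 𝟙 _) (h1 : ¬ IsZero (𝟙_ C))
    {M : C} {n : ℕ} (hM : ExtVanish M n) :
    Module.Finite K (𝟙_ C ⟶ M) ∧ Module.finrank K (𝟙_ C ⟶ M) ≤ n ∧
      (Module.finrank K (𝟙_ C ⟶ M) = n → IsUnitPower M n) := by
  classical
  have hr : Module.rank K (𝟙_ C ⟶ M) ≤ n := by
    apply rank_le
    intro s hs
    exact card_le hEnd h1 hM (fun i => ((s.equivFin.symm i : s) : 𝟙_ C ⟶ M))
      (hs.comp _ s.equivFin.symm.injective)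
  have hfin : Module.Finite K (𝟙_ C ⟶ M) :=
    Module.rank_lt_aleph0_iff.1 (lt_of_le_of_lt hr (Cardinal.natCast_lt_aleph0))
  refine ⟨hfin, Module.finrank_le_of_rank_le hr, fun h => ?_⟩
  let b := Module.finBasisOfFinrankEq K (𝟙_ C ⟶ M) h
  obtain ⟨y, hy⟩ := isUnitPower hEnd h1 hM (fun i => b i) b.linearIndependent
  exact ⟨_, y, hy⟩

/-- Objects of rank one over a field. -/
theorem exists_of_evenRankOne (hEnd : ∀ f : 𝟙_ C ⟶ 𝟙_ C, ∃ r : K, f = r • 𝟙 _)
    (h1 : ¬ IsZero (𝟙_ C)) {M : C} (hM : EvenRankOne K M) (x : 𝟙_ C ⟶ M) (hx : x ≠ 0) :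
    ∃ y : M ⟶ 𝟙_ C, x ≫ y = 𝟙 _ := by
  obtain ⟨E, iE, iA, hfin, ⟨A⟩, hext⟩ := hM
  set b := Module.finBasis K E with hb
  have hsum : ∀ (c : Fin (Module.finrank K E) → K),
      A.φ (∑ i, c i • b i) = ∑ i, c i • A.φ (b i) := by
    intro c
    let Φ : E →+ (M ⟶ M) := ⟨⟨A.φ, by
      have := A.map_add 0 0
      rw [add_zero] at this
      exact left_eq_add.1 this⟩, A.map_add⟩
    have h2 : Φ (∑ i, c i • b i) = ∑ i, Φ (c i • b i) := map_sum Φ _ _
    refine h2.trans (Finset.sum_congr rfl fun i _ => A.map_smul _ _)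
  have hli : LinearIndependent K (fun i => x ≫ A.φ (b i)) := by
    rw [Fintype.linearIndependent_iff]
    intro c hc
    have h2 : x ≫ A.φ (∑ i, c i • b i) = 0 := by
      rw [hsum, Preadditive.comp_sum, ← hc]
      exact Finset.sum_congr rfl (fun i _ => Linear.comp_smul _ _ _ _ _ _)
    have h3 : ∑ i, c i • b i = 0 := by
      by_contra h0
      apply hx
      have h4 : x = (x ≫ A.φ (∑ i, c i • b i)) ≫ A.φ (∑ i, c i • b i)⁻¹ := by
        rw [Category.assoc, ← A.map_mul, mul_inv_cancel₀ h0, A.map_one, Category.comp_id]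
      rw [h4, h2, zero_comp]
    exact Fintype.linearIndependent_iff.1 b.linearIndependent c h3
  obtain ⟨y, -, hy⟩ := isUnitPower hEnd h1 hext _ hli
  obtain ⟨j, hj⟩ : ∃ j, x ≫ y j ≠ 0 := by
    by_contra h
    push Not at h
    apply hx
    rw [← Category.comp_id x, ← hy, Preadditive.comp_sum]
    apply Finset.sum_eq_zero
    intro j _
    rw [← Category.assoc, h j, zero_comp]
  obtain ⟨r, hr⟩ := hEnd (x ≫ y j)
  have hr0 : r ≠ 0 := by
    rintro rfl
    exact hj (by rw [hr, zero_smul])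
  exact ⟨r⁻¹ • y j, by rw [Linear.comp_smul, hr, smul_smul, inv_mul_cancel₀ hr0, one_smul]⟩

/-- Sums of objects of rank one over fields. -/
theorem exists_of_sum (hEnd : ∀ f : 𝟙_ C ⟶ 𝟙_ C, ∃ r : K, f = r • 𝟙 _)
    (h1 : ¬ IsZero (𝟙_ C)) {M : C} (hM : SumOfRankOne K M) (x : 𝟙_ C ⟶ M) (hx : x ≠ 0) :
    ∃ y : M ⟶ 𝟙_ C, x ≫ y = 𝟙 _ := by
  obtain ⟨r, N, p, i, hN, hsum⟩ := hM
  obtain ⟨k, hk⟩ : ∃ k, x ≫ p k ≠ 0 := by
    by_contra h
    push Not at h
    apply hx
    rw [← Category.comp_id x, ← hsum, Preadditive.comp_sum]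
    apply Finset.sum_eq_zero
    intro j _
    rw [← Category.assoc, h j, zero_comp]
  rcases hN k with h | h
  · exact absurd (h _) (not_smashNilpotent hEnd h1 hk)
  · obtain ⟨y, hy⟩ := exists_of_evenRankOne hEnd h1 h _ hk
    exact ⟨p k ≫ y, by rw [← Category.assoc, hy]⟩

/-- Morphisms between sums of objects of rank one. -/
theorem exists_of_lines (hEnd : ∀ f : 𝟙_ C ⟶ 𝟙_ C, ∃ r : K, f = r • 𝟙 _) {A B : C}
    (hA : SumOfLines A) (hB : SumOfLines B) (f : A ⟶ B) (hf : f ≠ 0) :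
    ∃ (L : C) (a : L ⟶ A) (b : B ⟶ L), RankOne L ∧ a ≫ f ≫ b = 𝟙 L := by
  obtain ⟨r, N, p, i, hN, hsum⟩ := hA
  obtain ⟨r', N', p', i', hN', hsum'⟩ := hB
  obtain ⟨k, hk⟩ : ∃ k, i k ≫ f ≠ 0 := by
    by_contra h
    push Not at h
    apply hf
    rw [← Category.id_comp f, ← hsum, Preadditive.sum_comp]
    apply Finset.sum_eq_zero
    intro j _
    rw [Category.assoc, h j, comp_zero]
  obtain ⟨l, hl⟩ : ∃ l, (i k ≫ f) ≫ p' l ≠ 0 := by
    by_contra h
    push Not at h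
    apply hk
    rw [← Category.comp_id (i k ≫ f), ← hsum', Preadditive.comp_sum]
    apply Finset.sum_eq_zero
    intro j _
    rw [← Category.assoc, h j, zero_comp]
  have hiso := (hN k).isIso hEnd (hN' l) _ hl
  refine ⟨N k, i k, p' l ≫ inv ((i k ≫ f) ≫ p' l), hN k, ?_⟩
  have h : i k ≫ f ≫ p' l ≫ inv ((i k ≫ f) ≫ p' l) =
      ((i k ≫ f) ≫ p' l) ≫ inv ((i k ≫ f) ≫ p' l) := by
    simp only [Category.assoc]
  rw [h, IsIso.hom_inv_id]

end Pool.Agent.H694.AB
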