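import Pool.Agent.H694.AB.Unit
import Pool.Agent.H694.AB.Defs

/-!
# Objects of rank one in an abelian rigid tensor category
-/

open CategoryTheory MonoidalCategory Limits ExactPairing

universe v u w

set_option linter.unusedSectionVars false

namespace Pool.Agent.H694.AB

section Braid

variable {C : Type u} [Category.{v} C] [Preadditive C] [MonoidalCategory C]
  [MonoidalPreadditive C] [BraidedCategory C] [RigidCategory C]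
  {K : Type w} [Field K] [Linear K C] [MonoidalLinear K C]

/-- If the exchange of the factors of `X ⊗ X` is the scalar `c`, then the composition of the
evaluation and the coevaluation is `c` times an isomorphism. -/
lemma eval_comp_coeval (X Y : C) [ExactPairing X Y] {c : K}
    (h : (β_ X X).hom = c • 𝟙 (X ⊗ X)) :
    ε_ X Y ≫ η_ X Y = c • (β_ Y X).hom := by
  have h1 := BraidedCategory.hexagon_reverse Y X X
  rw [h, MonoidalLinear.whiskerLeft_smul, MonoidalCategory.whiskerLeft_id, Linear.smul_comp,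
    Category.id_comp] at h1
  have h2 : (β_ (Y ⊗ X) X).hom = c • ((β_ Y X).hom ▷ X ≫ (α_ X Y X).hom) := by
    have h3 : (α_ Y X X).hom ≫ ((α_ Y X X).inv ≫ (β_ (Y ⊗ X) X).hom ≫ (α_ X Y X).inv) ≫
        (α_ X Y X).hom = (β_ (Y ⊗ X) X).hom := by simp
    rw [← h3, h1]
    simp [Linear.comp_smul, Linear.smul_comp]
  have h4 := BraidedCategory.braiding_naturality_left (ε_ X Y) X
  have h5 : ε_ X Y ▷ X ≫ (λ_ X).hom = c • ((β_ Y X).hom ▷ X ≫ (α_ X Y X).hom ≫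
      X ◁ ε_ X Y ≫ (ρ_ X).hom) := by
    have h6 : (β_ (𝟙_ C) X).hom ≫ (ρ_ X).hom = (λ_ X).hom := by simp
    rw [← h6, ← Category.assoc, h4, h2]
    simp [Linear.smul_comp]
  have hz : Y ◁ η_ X Y ⊗≫ ε_ X Y ▷ Y = ⊗𝟙.hom := coevaluation_evaluation'' X Y
  have h7 : (β_ Y X).hom = 𝟙 _ ⊗≫ (Y ⊗ X) ◁ η_ X Y ⊗≫ ((β_ Y X).hom ▷ X ≫
      (α_ X Y X).hom ≫ X ◁ ε_ X Y ≫ (ρ_ X).hom) ▷ Y ⊗≫ 𝟙 _ := by
    calc (β_ Y X).hom = 𝟙 _ ⊗≫ (β_ Y X).hom ⊗≫ X ◁ (Y ◁ η_ X Y ⊗≫ ε_ X Y ▷ Y) ⊗≫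
          𝟙 _ := by rw [hz]; monoidal
      _ = 𝟙 _ ⊗≫ ((β_ Y X).hom ▷ 𝟙_ C ≫ (X ⊗ Y) ◁ η_ X Y) ⊗≫ X ◁ ε_ X Y ▷ Y ⊗≫
          𝟙 _ := by monoidal
      _ = 𝟙 _ ⊗≫ ((Y ⊗ X) ◁ η_ X Y ≫ (β_ Y X).hom ▷ (X ⊗ Y)) ⊗≫ X ◁ ε_ X Y ▷ Y ⊗≫
          𝟙 _ := by rw [whisker_exchange]
      _ = _ := by monoidal
  have h8 : ε_ X Y ≫ η_ X Y = 𝟙 _ ⊗≫ (Y ⊗ X) ◁ η_ X Y ⊗≫
      (ε_ X Y ▷ X ≫ (λ_ X).hom) ▷ Y ⊗≫ 𝟙 _ := by
    calc ε_ X Y ≫ η_ X Y = 𝟙 _ ⊗≫ (ε_ X Y ▷ 𝟙_ C ≫ 𝟙_ C ◁ η_ X Y) ⊗≫ 𝟙 _ := by monoidal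
      _ = 𝟙 _ ⊗≫ ((Y ⊗ X) ◁ η_ X Y ≫ ε_ X Y ▷ (X ⊗ Y)) ⊗≫ 𝟙 _ := by rw [whisker_exchange]
      _ = _ := by monoidal
  rw [h8, h5]
  conv_rhs => rw [h7]
  simp only [monoidalComp, MonoidalLinear.smul_whiskerRight, Linear.smul_comp, Linear.comp_smul]

end Braid

variable {C : Type u} [Category.{v} C] [Abelian C] [MonoidalCategory C] [MonoidalPreadditive C]
  [BraidedCategory C] [RigidCategory C] {K : Type w} [Field K] [Linear K C] [MonoidalLinear K C]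

omit [MonoidalLinear K C] in
lemma not_isZero_dual {X : C} (h : ¬ IsZero X) : ¬ IsZero (Xᘁ) := by
  intro h0
  apply h
  have h1 : IsZero ((X ⊗ Xᘁ) ⊗ X) := isZero_tensor_left (isZero_tensor_right h0)
  refine isZero_of_factor ((λ_ X).inv ≫ η_ X Xᘁ ▷ X) ((α_ _ _ _).hom ≫ X ◁ ε_ X Xᘁ ≫ (ρ_ X).hom)
    ?_ h1
  have hz := ExactPairing.evaluation_coevaluation X Xᘁ
  have : ((λ_ X).inv ≫ η_ X Xᘁ ▷ X) ≫ (α_ _ _ _).hom ≫ X ◁ ε_ X Xᘁ ≫ (ρ_ X).hom =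
      (λ_ X).inv ≫ (η_ X Xᘁ ▷ X ≫ (α_ _ _ _).hom ≫ X ◁ ε_ X Xᘁ) ≫ (ρ_ X).hom := by
    simp only [Category.assoc]
  rw [this, hz]
  simp

/-- Objects of rank one are invertible. -/
theorem RankOne.isIso_eval (hEnd : ∀ f : 𝟙_ C ⟶ 𝟙_ C, ∃ r : K, f = r • 𝟙 _) {L : C}
    (hL : RankOne L) : IsIso (ε_ L Lᘁ) := by
  obtain ⟨c, hc, hβ⟩ : ∃ c : K, c ≠ 0 ∧ (β_ L L).hom = c • 𝟙 (L ⊗ L) := by
    rcases hL.2 with h | h
    · exact ⟨1, one_ne_zero, by rw [h, one_smul]⟩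
    · exact ⟨-1, neg_ne_zero.2 one_ne_zero, by rw [h, neg_smul, one_smul]⟩
  have h1 := eval_comp_coeval L Lᘁ hβ
  have h2 : ε_ L Lᘁ ≫ (c⁻¹ • (η_ L Lᘁ ≫ (β_ Lᘁ L).inv)) = 𝟙 _ := by
    rw [Linear.comp_smul, ← Category.assoc, h1, Linear.smul_comp, Iso.hom_inv_id, smul_smul,
      inv_mul_cancel₀ hc, one_smul]
  have h3 : Mono (ε_ L Lᘁ) := by
    have : Mono (ε_ L Lᘁ ≫ (c⁻¹ • (η_ L Lᘁ ≫ (β_ Lᘁ L).inv))) := by rw [h2]; infer_instance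
    exact mono_of_mono _ (c⁻¹ • (η_ L Lᘁ ≫ (β_ Lᘁ L).inv))
  apply isIso_of_mono hEnd
  intro h4
  rcases isZero_or hEnd h4 with h5 | h5
  · exact not_isZero_dual hL.1 h5
  · exact hL.1 h5

/-- A nonzero subobject of an object of rank one is the whole object. -/
theorem RankOne.isIso_of_mono (hEnd : ∀ f : 𝟙_ C ⟶ 𝟙_ C, ∃ r : K, f = r • 𝟙 _) {L U : C}
    (hL : RankOne L) (m : U ⟶ L) [Mono m] (hU : ¬ IsZero U) : IsIso m := by
  have h1 := hL.isIso_eval hEnd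
  have h0 := not_isZero_dual hL.1
  have h2 : IsIso (Lᘁ ◁ m ≫ ε_ L Lᘁ) := by
    have : Mono (Lᘁ ◁ m ≫ ε_ L Lᘁ) := mono_comp _ _
    apply Pool.Agent.H694.AB.isIso_of_mono hEnd
    intro h
    rcases isZero_or hEnd h with h | h
    · exact h0 h
    · exact hU h
  have h3 : IsIso (Lᘁ ◁ m) := IsIso.of_isIso_comp_right _ (ε_ L Lᘁ)
  have h4 : IsZero (Lᘁ ⊗ cokernel m) := by
    refine IsZero.of_epi_eq_zero (Lᘁ ◁ cokernel.π m) ?_
    rw [← cancel_epi (Lᘁ ◁ m), ← MonoidalCategory.whiskerLeft_comp, cokernel.condition,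
      MonoidalPreadditive.whiskerLeft_zero, comp_zero]
  have h5 : IsZero (cokernel m) := (isZero_or hEnd h4).resolve_left h0
  have : Epi m := Preadditive.epi_of_cokernel_zero (h5.eq_of_tgt _ _)
  exact isIso_of_mono_of_epi m

/-- A nonzero quotient of an object of rank one is the whole object. -/
theorem RankOne.isIso_of_epi (hEnd : ∀ f : 𝟙_ C ⟶ 𝟙_ C, ∃ r : K, f = r • 𝟙 _) {L Q : C}
    (hL : RankOne L) (e : L ⟶ Q) [Epi e] (hQ : ¬ IsZero Q) : IsIso e := by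
  by_cases h : IsZero (kernel e)
  · have : Mono e := Preadditive.mono_of_isZero_kernel e h
    exact isIso_of_mono_of_epi e
  · have := hL.isIso_of_mono hEnd (kernel.ι e) h
    exfalso
    apply hQ
    apply IsZero.of_epi_eq_zero e
    rw [← cancel_epi (kernel.ι e), kernel.condition, comp_zero]

/-- Nonzero morphisms between objects of rank one are isomorphisms. -/
theorem RankOne.isIso (hEnd : ∀ f : 𝟙_ C ⟶ 𝟙_ C, ∃ r : K, f = r • 𝟙 _) {L L' : C}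
    (hL : RankOne L) (hL' : RankOne L') (f : L ⟶ L') (hf : f ≠ 0) : IsIso f := by
  have hI : ¬ IsZero (image f) := by
    intro h
    apply hf
    rw [← image.fac f, h.eq_of_tgt (factorThruImage f) 0, zero_comp]
  have h1 := hL.isIso_of_epi hEnd (factorThruImage f) hI
  have h2 := hL'.isIso_of_mono hEnd (image.ι f) hI
  rw [← image.fac f]
  infer_instance

end Pool.Agent.H694.AB
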