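import Pool.Agent.H694.AB.Line
import Pool.Agent.H694.AB.Defs

/-!
# Consequences of the abelianness of a rigid tensor category
-/

open CategoryTheory MonoidalCategory Limits ExactPairing Finset

universe v u w

set_option linter.unusedSectionVars false

namespace Pool.Agent.H694.AB

variable {C : Type u} [Category.{v} C] [Abelian C] [MonoidalCategory C] [MonoidalPreadditive C]
  [BraidedCategory C] [RigidCategory C] {K : Type w} [Field K] [Linear K C] [MonoidalLinear K C]

omit [Abelian C] [BraidedCategory C] [RigidCategory C] [MonoidalPreadditive C] [Linear K C]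
  [MonoidalLinear K C] in
lemma tensor_smul' [Preadditive C] [MonoidalPreadditive C] [Linear K C] [MonoidalLinear K C]
    {X Y S T : C} (f : X ⟶ Y) (r : K) (g : S ⟶ T) : f ⊗ₘ (r • g) = r • (f ⊗ₘ g) := by
  rw [MonoidalCategory.tensorHom_def, MonoidalCategory.tensorHom_def,
    MonoidalLinear.whiskerLeft_smul, Linear.comp_smul]

lemma zsmul_tensor' {X Y S T : C} (f : X ⟶ Y) (r : ℤ) (g : S ⟶ T) :
    (r • f) ⊗ₘ g = r • (f ⊗ₘ g) := by
  rw [MonoidalCategory.tensorHom_def, MonoidalCategory.tensorHom_def]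
  have h : (r • f) ▷ S = r • (f ▷ S) := (tensorRight S).map_zsmul
  rw [h, Preadditive.zsmul_comp]

/-- Exterior products with linearly independent elements, on the left. -/
theorem indep_left (hEnd : ∀ f : 𝟙_ C ⟶ 𝟙_ C, ∃ r : K, f = r • 𝟙 _) {N T : C} (r : ℕ) :
    ∀ {M : C} (f : Fin r → (𝟙_ C ⟶ M)), LinearIndependent K f → ∀ g : Fin r → (T ⟶ N),
      ∑ i, (λ_ T).inv ≫ (f i ⊗ₘ g i) = 0 → ∀ i, g i = 0 := by
  induction r with
  | zero => intro M f _ g _ i; exact i.elim0
  | succ r ih =>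
    intro M f hf g h
    have h0 : f 0 ≠ 0 := hf.ne_zero 0
    have hm : Mono (f 0) := mono_of_ne_zero hEnd _ h0
    rw [Fintype.linearIndependent_iff] at hf
    have hfbar : LinearIndependent K (fun i : Fin r => f i.succ ≫ cokernel.π (f 0)) := by
      rw [Fintype.linearIndependent_iff]
      intro a ha
      have h1 : (∑ i, a i • f i.succ) ≫ cokernel.π (f 0) = 0 := by
        rw [Preadditive.sum_comp, ← ha]
        exact Finset.sum_congr rfl (fun i _ => Linear.smul_comp _ _ _ _ _ _)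
      obtain ⟨s, hs⟩ := hEnd (Abelian.monoLift (f 0) _ h1)
      have h2 := Abelian.monoLift_comp (f 0) _ h1
      rw [hs, Linear.smul_comp, Category.id_comp] at h2
      have h3 := hf (Fin.cons (-s) a) (by
        rw [Fin.sum_univ_succ]
        simp only [Fin.cons_zero, Fin.cons_succ]
        rw [← h2, neg_smul, neg_add_cancel])
      intro i
      have := h3 i.succ
      rwa [Fin.cons_succ] at this
    have hsucc : ∀ i : Fin r, g i.succ = 0 := by
      apply ih _ hfbar (fun i => g i.succ)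
      have h1 : (∑ i, (λ_ T).inv ≫ (f i ⊗ₘ g i)) ≫ (cokernel.π (f 0) ▷ N) = 0 := by
        rw [h, zero_comp]
      rw [Preadditive.sum_comp, Fin.sum_univ_succ] at h1
      have h2 : ((λ_ T).inv ≫ (f 0 ⊗ₘ g 0)) ≫ (cokernel.π (f 0) ▷ N) = 0 := by
        rw [Category.assoc, ← tensorHom_id, tensorHom_comp_tensorHom, cokernel.condition,
          MonoidalPreadditive.zero_tensor, comp_zero]
      rw [h2, zero_add] at h1
      rw [← h1]
      apply Finset.sum_congr rfl
      intro i _
      rw [Category.assoc, ← tensorHom_id, tensorHom_comp_tensorHom, Category.comp_id]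
    have hzero : g 0 = 0 := by
      rw [Fin.sum_univ_succ] at h
      have h2 : ∑ i : Fin r, (λ_ T).inv ≫ (f i.succ ⊗ₘ g i.succ) = 0 := by
        apply Finset.sum_eq_zero
        intro i _
        rw [hsucc, MonoidalPreadditive.tensor_zero, comp_zero]
      rw [h2, add_zero] at h
      have h3 : f 0 ⊗ₘ g 0 = 0 := by
        rw [← cancel_epi (λ_ T).inv, h, comp_zero]
      by_contra hg
      exact tensorHom_ne_zero hEnd h0 hg h3
    intro i
    refine Fin.cases hzero hsucc i

/-- The same for any finite index set. -/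
theorem indep_left' (hEnd : ∀ f : 𝟙_ C ⟶ 𝟙_ C, ∃ r : K, f = r • 𝟙 _) {N T M : C}
    {ι : Type*} [Fintype ι] (f : ι → (𝟙_ C ⟶ M)) (hf : LinearIndependent K f)
    (g : ι → (T ⟶ N)) (h : ∑ i, (λ_ T).inv ≫ (f i ⊗ₘ g i) = 0) (i : ι) : g i = 0 := by
  classical
  have e := Fintype.equivFin ι
  have h1 := indep_left hEnd (N := N) (T := T) _ (fun k => f (e.symm k))
    (hf.comp _ e.symm.injective) (fun k => g (e.symm k))
    (by rw [← h]; exact e.symm.sum_comp (fun i => (λ_ T).inv ≫ (f i ⊗ₘ g i)))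
  have := h1 (e i)
  rwa [Equiv.symm_apply_apply] at this

/-- Exterior products with linearly independent elements, on the right. -/
theorem indep_right' (hEnd : ∀ f : 𝟙_ C ⟶ 𝟙_ C, ∃ r : K, f = r • 𝟙 _) {N T M : C}
    {ι : Type*} [Fintype ι] (f : ι → (𝟙_ C ⟶ M)) (hf : LinearIndependent K f)
    (g : ι → (T ⟶ N)) (h : ∑ i, (ρ_ T).inv ≫ (g i ⊗ₘ f i) = 0) (i : ι) : g i = 0 := by
  apply indep_left' hEnd f hf g
  have h1 : (∑ i, (ρ_ T).inv ≫ (g i ⊗ₘ f i)) ≫ (β_ N M).hom = 0 := by rw [h, zero_comp]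
  rw [Preadditive.sum_comp] at h1
  rw [← h1]
  apply Finset.sum_congr rfl
  intro i _
  rw [Category.assoc, BraidedCategory.braiding_naturality, ← Category.assoc]
  congr 1
  simp

/-- The products of independent elements are independent. -/
theorem words_indep (hEnd : ∀ f : 𝟙_ C ⟶ 𝟙_ C, ∃ r : K, f = r • 𝟙 _)
    (h1 : ¬ IsZero (𝟙_ C)) {M : C} {ι : Type*} [Fintype ι] [DecidableEq ι] (x : ι → (𝟙_ C ⟶ M))
    (hx : LinearIndependent K x) (n : ℕ) :
    LinearIndependent K (fun w : Fin n → ι => prod (fun k => x (w k))) := by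
  induction n with
  | zero =>
    rw [Fintype.linearIndependent_iff]
    intro c hc w
    rw [Fintype.sum_unique] at hc
    have hw : w = default := Subsingleton.elim _ _
    rw [hw]
    by_contra h0
    apply h1
    rw [IsZero.iff_id_eq_zero]
    have : prod (fun k => x ((default : Fin 0 → ι) k)) = 𝟙 (𝟙_ C) := rfl
    rw [this] at hc
    have h2 := congrArg (fun f => (c default)⁻¹ • f) hc
    simp only [smul_smul, inv_mul_cancel₀ h0, one_smul, smul_zero] at h2
    exact h2
  | succ n ih =>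
    rw [Fintype.linearIndependent_iff] at ih ⊢
    intro c hc
    have h2 : ∑ i : ι, (λ_ (𝟙_ C)).inv ≫ (x i ⊗ₘ ∑ w : Fin n → ι,
        c (Fin.cons i w) • prod (fun k => x (w k))) = 0 := by
      refine Eq.trans ?_ hc
      rw [← (Fin.consEquiv (fun _ : Fin (n + 1) => ι)).sum_comp, Fintype.sum_prod_type]
      apply Finset.sum_congr rfl
      intro i _
      rw [tensor_sum, Preadditive.comp_sum]
      apply Finset.sum_congr rfl
      intro w _
      rw [tensor_smul', Linear.comp_smul]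
      rfl
    have h3 := indep_left' hEnd x hx _ h2
    intro w
    have h4 := ih _ (h3 (w 0)) (fun k => w k.succ)
    rwa [show (Fin.cons (w 0) (fun k => w k.succ) : Fin (n + 1) → ι) = w from Fin.cons_self_tail w]
      at h4

/-- No nonzero element is smash nilpotent. -/
theorem not_smashNilpotent (hEnd : ∀ f : 𝟙_ C ⟶ 𝟙_ C, ∃ r : K, f = r • 𝟙 _)
    (h1 : ¬ IsZero (𝟙_ C)) {M : C} {x : 𝟙_ C ⟶ M} (hx : x ≠ 0) : ¬ SmashNilpotent x := by
  rintro ⟨n, hn⟩
  have h2 : LinearIndependent K (fun _ : Unit => x) := by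
    rw [linearIndependent_unique_iff]; exact hx
  have h3 := words_indep hEnd h1 (fun _ : Unit => x) h2 n
  exact h3.ne_zero (fun _ => ()) hn

/-- The map `q` on the first factor of a tensor power. -/
def headMap {M Q : C} (q : M ⟶ Q) (n : ℕ) : pow M (n + 1) ⟶ Q ⊗ pow M n := q ▷ pow M n

lemma prodIns_zero_head {M Q : C} (q : M ⟶ Q) {n : ℕ} (x : Fin n → (𝟙_ C ⟶ M)) :
    prodIns (𝟙 M) x 0 ≫ headMap q n = (ρ_ M).inv ≫ (q ⊗ₘ prod x) := by
  have h : ((ρ_ M).inv ≫ (𝟙 M ⊗ₘ prod x)) ≫ (q ▷ pow M n) = (ρ_ M).inv ≫ (q ⊗ₘ prod x) := by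
    rw [Category.assoc, ← tensorHom_id, tensorHom_comp_tensorHom, Category.id_comp,
      Category.comp_id]
  cases n with
  | zero => exact h
  | succ n => exact h

lemma prodIns_succ_head {M Q : C} (q : M ⟶ Q) {n : ℕ} (x : Fin n → (𝟙_ C ⟶ M))
    (hq : ∀ i, x i ≫ q = 0) (j : Fin n) :
    prodIns (𝟙 M) x j.succ ≫ headMap q n = 0 := by
  cases n with
  | zero => exact j.elim0
  | succ n =>
    have h : ((λ_ M).inv ≫ (x 0 ⊗ₘ prodIns (𝟙 M) (fun i => x i.succ) j)) ≫
        (q ▷ pow M (n + 1)) = 0 := by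
      rw [Category.assoc, ← tensorHom_id, tensorHom_comp_tensorHom, hq,
        MonoidalPreadditive.zero_tensor, comp_zero]
    exact h

/-- If the exterior power of degree `n + 1` vanishes, then `n` independent elements generate. -/
theorem maxRank (hEnd : ∀ f : 𝟙_ C ⟶ 𝟙_ C, ∃ r : K, f = r • 𝟙 _) (h1 : ¬ IsZero (𝟙_ C)) {M : C}
    {n : ℕ} (hM : ExtVanish M n) (x : Fin n → (𝟙_ C ⟶ M)) (hx : LinearIndependent K x) {Q : C}
    (q : M ⟶ Q) (hq : ∀ i, x i ≫ q = 0) : q = 0 := by
  classical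
  have h2 : _ ≫ headMap q n = 0 ≫ headMap q n :=
    congrArg (fun f => f ≫ headMap q n) (hM x)
  rw [zero_comp, Preadditive.sum_comp] at h2
  have h3 : ∑ σ : Equiv.Perm (Fin n), (ρ_ M).inv ≫
      (((Equiv.Perm.sign σ : ℤ) • q) ⊗ₘ prod (fun i => x (σ i))) = 0 := by
    refine Eq.trans ?_ h2
    apply Finset.sum_congr rfl
    intro σ _
    rw [Preadditive.sum_comp, Fin.sum_univ_succ]
    have h4 : ∑ j : Fin n, (((Equiv.Perm.sign σ : ℤ) * (-1) ^ ((j.succ : Fin (n + 1)) : ℕ)) •
        prodIns (𝟙 M) (fun i => x (σ i)) j.succ) ≫ headMap q n = 0 := by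
      apply Finset.sum_eq_zero
      intro j _
      rw [Preadditive.zsmul_comp, prodIns_succ_head q _ (fun i => hq _), smul_zero]
    rw [h4, add_zero, Preadditive.zsmul_comp, prodIns_zero_head, zsmul_tensor',
      Preadditive.comp_zsmul]
    simp only [Fin.val_zero, pow_zero, mul_one]
  have hP : LinearIndependent K (fun σ : Equiv.Perm (Fin n) => prod (fun i => x (σ i))) :=
    (words_indep hEnd h1 x hx n).comp (fun σ : Equiv.Perm (Fin n) => (σ : Fin n → Fin n))
      (fun σ τ h => Equiv.ext (fun i => congrFun h i))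
  have h6 := indep_right' hEnd _ hP (fun σ => (Equiv.Perm.sign σ : ℤ) • q) h3 1
  simpa using h6

/-- If the exterior power of degree `n + 1` vanishes and there are `n` independent elements, then
`M` is the sum of `n` copies of the unit object. -/
theorem isUnitPower (hEnd : ∀ f : 𝟙_ C ⟶ 𝟙_ C, ∃ r : K, f = r • 𝟙 _) (h1 : ¬ IsZero (𝟙_ C))
    {M : C} {n : ℕ} (hM : ExtVanish M n) (x : Fin n → (𝟙_ C ⟶ M)) (hx : LinearIndependent K x) :
    ∃ y : Fin n → (M ⟶ 𝟙_ C),
      (∀ i j, x i ≫ y j = if i = j then 𝟙 (𝟙_ C) else 0) ∧ ∑ j, y j ≫ x j = 𝟙 M := by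
  classical
  have hbi : HasFiniteBiproducts C := Abelian.hasFiniteBiproducts
  set X : (⨁ fun _ : Fin n => 𝟙_ C) ⟶ M := biproduct.desc x with hX
  have hι : ∀ j, biproduct.ι (fun _ : Fin n => 𝟙_ C) j ≫ X = x j := fun j =>
    biproduct.ι_desc _ _
  have htot : ∑ j, biproduct.π (fun _ : Fin n => 𝟙_ C) j ≫ biproduct.ι (fun _ : Fin n => 𝟙_ C) j = 𝟙 _ :=
    biproduct.total
  have hmono : Mono X := by
    apply Preadditive.mono_of_cancel_zero
    intro T g hg
    have h2 : ∑ i, (ρ_ T).inv ≫ ((g ≫ biproduct.π (fun _ : Fin n => 𝟙_ C) i) ⊗ₘ x i) = 0 := by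
      have h3 : g ≫ X = ∑ i, (g ≫ biproduct.π (fun _ : Fin n => 𝟙_ C) i) ≫ x i := by
        calc g ≫ X = g ≫ (∑ j, biproduct.π (fun _ : Fin n => 𝟙_ C) j ≫ biproduct.ι (fun _ : Fin n => 𝟙_ C) j) ≫ X := by
              rw [htot, Category.id_comp]
          _ = _ := by
              rw [Preadditive.sum_comp, Preadditive.comp_sum]
              apply Finset.sum_congr rfl
              intro i _
              rw [Category.assoc, hι, Category.assoc]
      have h4 : ∀ (a : T ⟶ 𝟙_ C) (b : 𝟙_ C ⟶ M),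
          (ρ_ T).inv ≫ (a ⊗ₘ b) = a ≫ b ≫ (λ_ M).inv := by
        intro a b
        rw [MonoidalCategory.tensorHom_def]
        simp [unitors_equal, id_whiskerLeft]
      rw [Finset.sum_congr rfl (fun i _ => h4 (g ≫ biproduct.π (fun _ : Fin n => 𝟙_ C) i) (x i))]
      have h5 : ∑ i, (g ≫ biproduct.π (fun _ : Fin n => 𝟙_ C) i) ≫ x i ≫ (λ_ M).inv =
          (g ≫ X) ≫ (λ_ M).inv := by
        rw [h3, Preadditive.sum_comp]
        exact Finset.sum_congr rfl (fun i _ => by simp only [Category.assoc])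
      rw [h5, hg, zero_comp]
    have h3 := indep_right' hEnd x hx _ h2
    rw [← Category.comp_id g, ← htot, Preadditive.comp_sum]
    apply Finset.sum_eq_zero
    intro i _
    rw [← Category.assoc, h3 i, zero_comp]
  have hepi : Epi X := by
    apply Preadditive.epi_of_cancel_zero
    intro Q q hq
    apply maxRank hEnd h1 hM x hx
    intro i
    rw [← hι, Category.assoc, hq, comp_zero]
  have hiso : IsIso X := isIso_of_mono_of_epi X
  refine ⟨fun j => inv X ≫ biproduct.π (fun _ : Fin n => 𝟙_ C) j, ?_, ?_⟩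
  · intro i j
    rw [← hι i, Category.assoc, IsIso.hom_inv_id_assoc, biproduct.ι_π]
    split_ifs with h
    · subst h; rfl
    · rfl
  · have h2 : ∑ j, (inv X ≫ biproduct.π (fun _ : Fin n => 𝟙_ C) j) ≫ x j = inv X ≫ X := by
      calc ∑ j, (inv X ≫ biproduct.π (fun _ : Fin n => 𝟙_ C) j) ≫ x j =
          inv X ≫ (∑ j, biproduct.π (fun _ : Fin n => 𝟙_ C) j ≫ biproduct.ι (fun _ : Fin n => 𝟙_ C) j) ≫ X := by
            rw [Preadditive.sum_comp, Preadditive.comp_sum]
            apply Finset.sum_congr rfl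
            intro i _
            rw [Category.assoc, Category.assoc, hι]
        _ = _ := by rw [htot, Category.id_comp]
    rw [h2, IsIso.inv_hom_id]

end Pool.Agent.H694.AB
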