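import Pool.Agent.H694.AB.Basic

/-!
# The unit object of an abelian rigid tensor category is simple
-/

open CategoryTheory MonoidalCategory Limits ExactPairing

universe v u w

set_option linter.unusedSectionVars false

namespace Pool.Agent.H694.AB

variable {C : Type u} [Category.{v} C] [Abelian C] [MonoidalCategory C] [MonoidalPreadditive C]
  [BraidedCategory C] [RigidCategory C]

/-- The transpose of a morphism from the unit object. -/
noncomputable def tr {I : C} (p : 𝟙_ C ⟶ I) : Iᘁ ⟶ 𝟙_ C :=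
  (ρ_ Iᘁ).inv ≫ Iᘁ ◁ p ≫ ε_ I Iᘁ

lemma epi_whisker_tr {I : C} (p : 𝟙_ C ⟶ I) [Epi p] : Epi (I ◁ tr p) := by
  have h1 : Epi (I ◁ ε_ I Iᘁ) := by
    have hz := ExactPairing.evaluation_coevaluation I Iᘁ
    have h2 : Epi ((η_ I Iᘁ ▷ I ≫ (α_ _ _ _).hom) ≫ I ◁ ε_ I Iᘁ) := by
      rw [Category.assoc, hz]
      infer_instance
    exact epi_of_epi (η_ I Iᘁ ▷ I ≫ (α_ _ _ _).hom) _
  unfold tr
  rw [MonoidalCategory.whiskerLeft_comp, MonoidalCategory.whiskerLeft_comp]
  have h3 : Epi (I ◁ Iᘁ ◁ p ≫ I ◁ ε_ I Iᘁ) := epi_comp _ _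
  exact epi_comp _ _

/-- The kernel of an epimorphism from the unit object to `I` is orthogonal to `I`. -/
lemma isZero_kernel_tensor {I : C} (p : 𝟙_ C ⟶ I) [Epi p] : IsZero (kernel p ⊗ I) := by
  refine isZero_mid (kernel p ◁ p) (kernel.ι p ▷ I) ?_
  rw [whisker_exchange]
  have h1 : kernel.ι p ▷ 𝟙_ C ≫ 𝟙_ C ◁ p = (ρ_ _).hom ≫ (kernel.ι p ≫ p) ≫ (λ_ _).inv := by
    rw [whiskerRight_id, id_whiskerLeft]
    simp [unitors_equal, unitors_inv_equal]
  rw [h1, kernel.condition]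
  simp

lemma mono_image_comp {I : C} (p : 𝟙_ C ⟶ I) [Epi p] : Mono (image.ι (tr p) ≫ p) := by
  apply Preadditive.mono_of_isZero_kernel
  set t := image.ι (tr p) ≫ p with ht
  -- the kernel is contained in the image and in the kernel of `p`
  have hj : (kernel.ι t ≫ image.ι (tr p)) ≫ p = 0 := by
    rw [Category.assoc]; exact kernel.condition t
  have hl : kernel.lift p _ hj ≫ kernel.ι p = kernel.ι t ≫ image.ι (tr p) := kernel.lift_ι _ _ _
  have hm : Mono (kernel.lift p _ hj) := by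
    have : Mono (kernel.lift p _ hj ≫ kernel.ι p) := by
      rw [hl]; exact mono_comp _ _
    exact mono_of_mono _ (kernel.ι p)
  -- the product of the image and the kernel is zero
  have hz : IsZero (image (tr p) ⊗ kernel p) := by
    have h1 : IsZero (Iᘁ ⊗ kernel p) := isZero_dual (isZero_comm (isZero_kernel_tensor p))
    exact IsZero.of_epi (factorThruImage (tr p) ▷ kernel p) h1
  apply isZero_self
  have hm2 : Mono (kernel.ι t ▷ kernel t ≫ image (tr p) ◁ kernel.lift p _ hj) := mono_comp _ _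
  exact IsZero.of_mono (kernel.ι t ▷ kernel t ≫ image (tr p) ◁ kernel.lift p _ hj) hz

lemma epi_image_comp {I : C} (p : 𝟙_ C ⟶ I) [Epi p] : Epi (image.ι (tr p) ≫ p) := by
  set t := image.ι (tr p) ≫ p with ht
  have h0 : tr p ≫ (p ≫ cokernel.π t) = 0 := by
    have h : tr p ≫ (p ≫ cokernel.π t) =
        (factorThruImage (tr p) ≫ image.ι (tr p)) ≫ p ≫ cokernel.π t := by rw [image.fac]
    rw [h, Category.assoc, ← Category.assoc (image.ι (tr p)), ← ht, cokernel.condition, comp_zero]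
  have he : Epi (p ≫ cokernel.π t) := epi_comp _ _
  have h1 : I ◁ (p ≫ cokernel.π t) = 0 := by
    have := epi_whisker_tr p
    rw [← cancel_epi (I ◁ tr p), ← MonoidalCategory.whiskerLeft_comp, h0,
      MonoidalPreadditive.whiskerLeft_zero, comp_zero]
  have h2 : IsZero (I ⊗ cokernel t) := by
    have : Epi (I ◁ (p ≫ cokernel.π t)) := inferInstance
    exact IsZero.of_epi_eq_zero _ h1
  have h3 : IsZero (cokernel t ⊗ cokernel t) := IsZero.of_epi (cokernel.π t ▷ cokernel t) h2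
  have h4 : IsZero (cokernel t) := isZero_self h3
  apply Preadditive.epi_of_cokernel_zero
  exact h4.eq_of_tgt _ _

variable {K : Type w} [Field K] [Linear K C]

/-- A nonzero quotient of the unit object is the unit object. -/
theorem isIso_of_epi (hEnd : ∀ f : 𝟙_ C ⟶ 𝟙_ C, ∃ r : K, f = r • 𝟙 _) {I : C} (p : 𝟙_ C ⟶ I)
    [Epi p] (hI : ¬ IsZero I) : IsIso p := by
  set t := image.ι (tr p) ≫ p with ht
  have h1 : Mono t := mono_image_comp p
  have h2 : Epi t := epi_image_comp p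
  have h3 : IsIso t := isIso_of_mono_of_epi t
  set s : I ⟶ 𝟙_ C := inv t ≫ image.ι (tr p) with hs
  have hsp : s ≫ p = 𝟙 I := by
    rw [hs, Category.assoc, ← ht, IsIso.inv_hom_id]
  obtain ⟨r, hr⟩ := hEnd (p ≫ s)
  have hr0 : r ≠ 0 := by
    rintro rfl
    apply hI
    rw [zero_smul] at hr
    have h4 : p = 0 := by
      rw [← Category.comp_id p, ← hsp, ← Category.assoc, hr, zero_comp]
    exact IsZero.of_epi_eq_zero p h4
  have h5 : p ≫ (r⁻¹ • s) = 𝟙 _ := by
    rw [Linear.comp_smul, hr, smul_smul, inv_mul_cancel₀ hr0, one_smul]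
  have : Mono p := by
    have : Mono (p ≫ (r⁻¹ • s)) := by rw [h5]; infer_instance
    exact mono_of_mono p (r⁻¹ • s)
  exact isIso_of_mono_of_epi p

/-- A nonzero morphism from the unit object is a monomorphism. -/
theorem mono_of_ne_zero (hEnd : ∀ f : 𝟙_ C ⟶ 𝟙_ C, ∃ r : K, f = r • 𝟙 _) {M : C} (f : 𝟙_ C ⟶ M)
    (hf : f ≠ 0) : Mono f := by
  have hI : ¬ IsZero (image f) := by
    intro h
    apply hf
    rw [← image.fac f, h.eq_of_tgt (factorThruImage f) 0, zero_comp]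
  have := isIso_of_epi hEnd (factorThruImage f) hI
  rw [← image.fac f]
  exact mono_comp _ _

/-- A nonzero subobject of the unit object is the unit object. -/
theorem isIso_of_mono (hEnd : ∀ f : 𝟙_ C ⟶ 𝟙_ C, ∃ r : K, f = r • 𝟙 _) {U : C} (f : U ⟶ 𝟙_ C)
    [Mono f] (hU : ¬ IsZero U) : IsIso f := by
  by_cases h : IsZero (cokernel f)
  · have : Epi f := Preadditive.epi_of_cokernel_zero (h.eq_of_tgt _ _)
    exact isIso_of_mono_of_epi f
  · have := isIso_of_epi hEnd (cokernel.π f) h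
    exfalso
    apply hU
    apply IsZero.of_mono_eq_zero f
    rw [← cancel_mono (cokernel.π f), cokernel.condition, zero_comp]

/-- The product of nonzero objects is nonzero. -/
theorem isZero_or (hEnd : ∀ f : 𝟙_ C ⟶ 𝟙_ C, ∃ r : K, f = r • 𝟙 _) {A B : C}
    (h : IsZero (A ⊗ B)) : IsZero A ∨ IsZero B := by
  by_cases hA : IsZero A
  · exact Or.inl hA
  right
  have hη : η_ A Aᘁ ≠ 0 := by
    intro h0
    apply hA
    have hz := ExactPairing.evaluation_coevaluation A Aᘁ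
    rw [h0, MonoidalPreadditive.zero_whiskerRight, zero_comp] at hz
    rw [IsZero.iff_id_eq_zero]
    have h1 : 𝟙 A = (λ_ A).inv ≫ ((λ_ A).hom ≫ (ρ_ A).inv) ≫ (ρ_ A).hom := by simp
    rw [h1, ← hz, zero_comp, comp_zero]
  have := mono_of_ne_zero hEnd _ hη
  have h1 : IsZero ((A ⊗ Aᘁ) ⊗ B) := by
    have h2 : IsZero (Aᘁ ⊗ (A ⊗ B)) := isZero_tensor_right h
    refine h2.of_iso ?_
    exact (whiskerRightIso (β_ _ _) B) ≪≫ α_ _ _ _
  have h2 : IsZero (𝟙_ C ⊗ B) := IsZero.of_mono (η_ A Aᘁ ▷ B) h1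
  exact h2.of_iso (λ_ B).symm

/-- The product of nonzero morphisms is nonzero. -/
theorem tensorHom_ne_zero (hEnd : ∀ f : 𝟙_ C ⟶ 𝟙_ C, ∃ r : K, f = r • 𝟙 _) {X Y S T : C}
    {f : X ⟶ Y} {g : S ⟶ T} (hf : f ≠ 0) (hg : g ≠ 0) : f ⊗ₘ g ≠ 0 := by
  intro h
  have key : ∀ {X Y : C} {f : X ⟶ Y}, f ≠ 0 → ¬ IsZero (image f) := by
    intro X Y f hf h
    apply hf
    rw [← image.fac f, h.eq_of_tgt (factorThruImage f) 0, zero_comp]
  have h1 : (factorThruImage f ⊗ₘ factorThruImage g) ≫ (image.ι f ⊗ₘ image.ι g) = 0 := by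
    rw [tensorHom_comp_tensorHom, image.fac, image.fac, h]
  have h2 : Epi (factorThruImage f ⊗ₘ factorThruImage g) := by
    rw [MonoidalCategory.tensorHom_def]; exact epi_comp _ _
  have h3 : Mono (image.ι f ⊗ₘ image.ι g) := by
    rw [MonoidalCategory.tensorHom_def]; exact mono_comp _ _
  rcases isZero_or hEnd (isZero_mid _ _ h1) with h4 | h4
  · exact key hf h4
  · exact key hg h4

end Pool.Agent.H694.AB
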